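import Mathlib

set_option autoImplicit false

open Module

namespace Pool.Agent.Results.MP_ca0b96_co.QRado

/-- A `q`-matroid on the vector space `V` over the field `F`: a rank function on the subspaces. -/
structure QMatroid (F V : Type*) [Field F] [AddCommGroup V] [Module F V] where
  /-- the rank function -/
  r : Submodule F V → ℕ
  /-- `0 ≤ r A ≤ dim A` -/
  r_le_finrank : ∀ A : Submodule F V, r A ≤ finrank F A
  /-- monotonicity -/
  r_mono : ∀ A B : Submodule F V, A ≤ B → r A ≤ r B
  /-- submodularity -/
  r_submod : ∀ A B : Submodule F V, r (A ⊔ B) + r (A ⊓ B) ≤ r A + r B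

variable {F V : Type*} [Field F] [AddCommGroup V] [Module F V]

/-- A subspace `A` is independent in `M` if `r A = dim A`. -/
def QMatroid.Indep (M : QMatroid F V) (A : Submodule F V) : Prop := M.r A = finrank F A

/-- A basis of `M` is a maximal independent subspace. -/
def QMatroid.IsBasis (M : QMatroid F V) (B : Submodule F V) : Prop :=
  M.Indep B ∧ ∀ B' : Submodule F V, M.Indep B' → B ≤ B' → B' = B

/-- The bar nullity: the minimum of `dim (B ∩ X)` over the bases `B` of `M`. -/
noncomputable def QMatroid.barNullity (M : QMatroid F V) (X : Submodule F V) : ℕ :=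
  sInf {d : ℕ | ∃ B : Submodule F V, M.IsBasis B ∧ d = finrank F (B ⊓ X : Submodule F V)}

/-- `T` is a `q`-transversal of the family `X 0, …, X (n - 1)`: `dim T = n` and every vector basis
of `T` can be listed as `b 0, …, b (n - 1)` with `b i ∉ X i` for all `i`. -/
def IsQTransversal {n : ℕ} (X : Fin n → Submodule F V) (T : Submodule F V) : Prop :=
  finrank F T = n ∧
    ∀ b : Basis (Fin n) F T, ∃ σ : Equiv.Perm (Fin n), ∀ i, (b (σ i) : V) ∉ X i

/-- The intersection `𝒳(J)` of the members of the family indexed by `J`
(the whole space for `J = ∅`). -/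
def inter {n : ℕ} (X : Fin n → Submodule F V) (J : Finset (Fin n)) : Submodule F V :=
  ⨅ j ∈ J, X j

section basics

/-- A subspace is not the union of two proper subspaces (relative version). -/
lemma exists_mem_notMem {W C D : Submodule F V} (hC : ¬ W ≤ C) (hD : ¬ W ≤ D) :
    ∃ v ∈ W, v ∉ C ∧ v ∉ D := by
  rw [SetLike.not_le_iff_exists] at hC hD
  obtain ⟨c, hcW, hc⟩ := hC
  obtain ⟨d, hdW, hd⟩ := hD
  by_cases h1 : c ∈ D
  · by_cases h2 : d ∈ C
    · refine ⟨c + d, W.add_mem hcW hdW, fun h => hc ?_, fun h => hd ?_⟩
      · simpa using C.sub_mem h h2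
      · simpa using D.sub_mem h h1
    · exact ⟨d, hdW, h2, hd⟩
  · exact ⟨c, hcW, hc, h1⟩

variable [FiniteDimensional F V] (M : QMatroid F V)

lemma finrank_sup_span_le (A : Submodule F V) (v : V) :
    finrank F (A ⊔ Submodule.span F {v} : Submodule F V) ≤ finrank F A + 1 := by
  have h1 := Submodule.finrank_add_le_finrank_add_finrank A (Submodule.span F {v})
  have h2 : finrank F (Submodule.span F {v}) ≤ 1 := by
    rcases eq_or_ne v 0 with h | h
    · rw [h, Submodule.span_zero_singleton, finrank_bot]
      omega
    · exact (finrank_span_singleton h).le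
  omega

/-- A closure: a subspace `C ⊇ A` of the same rank outside of which adding a vector to `A`
increases the rank. -/
lemma exists_closure (A : Submodule F V) :
    ∃ C : Submodule F V, A ≤ C ∧ M.r C = M.r A ∧
      ∀ v, v ∉ C → M.r A + 1 ≤ M.r (A ⊔ Submodule.span F {v}) := by
  -- choose `C` of maximal dimension with `A ≤ C` and `r C = r A`
  have hne : ∃ d : ℕ, ∃ C : Submodule F V, A ≤ C ∧ M.r C = M.r A ∧ finrank F C = d :=
    ⟨_, A, le_refl _, rfl, rfl⟩
  classical
  obtain ⟨m, ⟨C, hAC, hCr, hCm⟩, hmax⟩ :
      ∃ m, (∃ C : Submodule F V, A ≤ C ∧ M.r C = M.r A ∧ finrank F C = m) ∧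
        ∀ C : Submodule F V, A ≤ C → M.r C = M.r A → finrank F C ≤ m := by
    have hbd : ∀ d, (∃ C : Submodule F V, A ≤ C ∧ M.r C = M.r A ∧ finrank F C = d) →
        d ≤ finrank F V := by
      rintro d ⟨C, _, _, rfl⟩
      exact Submodule.finrank_le C
    refine ⟨Nat.findGreatest (fun d => ∃ C : Submodule F V, A ≤ C ∧ M.r C = M.r A ∧
      finrank F C = d) (finrank F V), ?_, ?_⟩
    · obtain ⟨d, hd⟩ := hne
      exact Nat.findGreatest_spec (P := fun d => ∃ C : Submodule F V, A ≤ C ∧ M.r C = M.r A ∧
        finrank F C = d) (hbd d hd) hd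
    · intro C h1 h2
      exact Nat.le_findGreatest (Submodule.finrank_le C) ⟨C, h1, h2, rfl⟩
  refine ⟨C, hAC, hCr, fun v hv => ?_⟩
  have h1 : M.r (C ⊔ Submodule.span F {v}) ≠ M.r A := by
    intro h
    have h2 := hmax (C ⊔ Submodule.span F {v}) (hAC.trans le_sup_left) h
    have h3 : C < C ⊔ Submodule.span F {v} := by
      refine lt_of_le_of_ne le_sup_left fun he => hv ?_
      rw [he]
      exact Submodule.mem_sup_right (Submodule.mem_span_singleton_self v)
    have h4 := Submodule.finrank_lt_finrank_of_lt h3
    omega
  have h2 : M.r A ≤ M.r (C ⊔ Submodule.span F {v}) := by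
    rw [← hCr]; exact M.r_mono _ _ le_sup_left
  have h3 := M.r_submod C (A ⊔ Submodule.span F {v})
  have h4 : C ⊔ (A ⊔ Submodule.span F {v}) = C ⊔ Submodule.span F {v} := by
    rw [← sup_assoc, sup_eq_left.2 hAC]
  have h5 : M.r A ≤ M.r (C ⊓ (A ⊔ Submodule.span F {v})) :=
    M.r_mono _ _ (le_inf hAC le_sup_left)
  rw [h4] at h3
  omega

/-- Inside a subspace `W` of rank at least `n` and dimension larger than `n` there is an
independent subspace of dimension `n` avoiding a given nonzero vector. -/
lemma exists_indep_avoiding {W : Submodule F V} {d : V} (hd : d ≠ 0) {n : ℕ}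
    (hr : n ≤ M.r W) (hW : n < finrank F W) :
    ∀ k, k ≤ n → ∃ Y : Submodule F V, Y ≤ W ∧ M.Indep Y ∧ finrank F Y = k ∧ d ∉ Y := by
  intro k
  induction k with
  | zero =>
    intro _
    refine ⟨⊥, bot_le, ?_, by simp, by simpa using hd⟩
    have := M.r_le_finrank ⊥
    unfold QMatroid.Indep
    simp only [finrank_bot] at this ⊢
    omega
  | succ k ih =>
    intro hk
    obtain ⟨Y, hYW, hYi, hYk, hdY⟩ := ih (by omega)
    obtain ⟨C, hYC, hCr, hC⟩ := exists_closure M Y
    have h1 : ¬ W ≤ C := by
      intro h
      have h1 := M.r_mono _ _ h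
      have h2 : M.r Y = finrank F Y := hYi
      omega
    have h2 : ¬ W ≤ Y ⊔ Submodule.span F {d} := by
      intro h
      have h1 := Submodule.finrank_mono h
      have h2 := finrank_sup_span_le Y d
      omega
    obtain ⟨v, hvW, hvC, hvD⟩ := exists_mem_notMem h1 h2
    have h3 := hC v hvC
    have h4 := finrank_sup_span_le Y v
    have h5 := M.r_le_finrank (Y ⊔ Submodule.span F {v})
    have h6 : M.r Y = finrank F Y := hYi
    refine ⟨Y ⊔ Submodule.span F {v}, ?_, ?_, by omega, ?_⟩
    · refine sup_le hYW ?_
      rw [Submodule.span_singleton_le_iff_mem]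
      exact hvW
    · unfold QMatroid.Indep
      omega
    · intro hmem
      rw [Submodule.mem_sup] at hmem
      obtain ⟨y, hy, z, hz, hyz⟩ := hmem
      rw [Submodule.mem_span_singleton] at hz
      obtain ⟨c, rfl⟩ := hz
      rcases eq_or_ne c 0 with hc | hc
      · subst hc
        apply hdY
        rw [← hyz]
        simpa using hy
      · apply hvD
        have : v = c⁻¹ • (d - y) := by
          rw [← hyz]
          simp [smul_smul, hc]
        rw [this]
        apply Submodule.smul_mem
        apply Submodule.sub_mem
        · exact Submodule.mem_sup_right (Submodule.mem_span_singleton_self d)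
        · exact Submodule.mem_sup_left hy

/-- Intersecting with a hyperplane `ker f` drops the dimension by at most one. -/
lemma finrank_inf_ker_ge (A : Submodule F V) (f : V →ₗ[F] F) :
    finrank F A ≤ finrank F (A ⊓ LinearMap.ker f : Submodule F V) + 1 := by
  have h1 := Submodule.finrank_sup_add_finrank_inf_eq A (LinearMap.ker f)
  have h2 := f.finrank_range_add_finrank_ker
  have h3 : finrank F (LinearMap.range f) ≤ finrank F F := Submodule.finrank_le _
  have h4 : finrank F F = 1 := finrank_self F
  have h5 := Submodule.finrank_le (A ⊔ LinearMap.ker f)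
  omega

/-- Intersecting with `ker f` drops the dimension if `A` contains a vector `d` with `f d ≠ 0`. -/
lemma finrank_inf_ker_lt {A : Submodule F V} {f : V →ₗ[F] F} {d : V} (hd : d ∈ A)
    (hf : f d ≠ 0) : finrank F (A ⊓ LinearMap.ker f : Submodule F V) < finrank F A := by
  apply Submodule.finrank_lt_finrank_of_lt
  refine lt_of_le_of_ne inf_le_left fun h => hf ?_
  rw [← h] at hd
  exact hd.2

/-- Subspaces of independent spaces are independent. -/
lemma indep_of_le {A B : Submodule F V} (hAB : A ≤ B) (hB : M.Indep B) : M.Indep A := by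
  obtain ⟨A', hA'⟩ := exists_isCompl A
  -- complement of `A` in `B`
  have h1 : A ⊔ (A' ⊓ B) = B := by
    have h := sup_inf_assoc_of_le A' hAB
    rw [hA'.sup_eq_top, top_inf_eq] at h
    exact h.symm
  have h2 : A ⊓ (A' ⊓ B) = ⊥ := by
    rw [← inf_assoc, hA'.inf_eq_bot, bot_inf_eq]
  have h3 := M.r_submod A (A' ⊓ B)
  have h4 := Submodule.finrank_sup_add_finrank_inf_eq A (A' ⊓ B)
  rw [h1] at h3 h4
  rw [h2] at h4
  have h5 := M.r_le_finrank (A' ⊓ B)
  have h6 := M.r_le_finrank A
  have h7 : M.r B = finrank F B := hB
  simp only [finrank_bot] at h4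
  unfold QMatroid.Indep
  omega

/-- An independent space is contained in a basis, and all bases have dimension `r V`. -/
lemma basis_finrank {B : Submodule F V} (hB : M.IsBasis B) : finrank F B = M.r ⊤ := by
  obtain ⟨hBi, hBm⟩ := hB
  have h0 : M.r B = finrank F B := hBi
  have h1 : M.r B ≤ M.r ⊤ := M.r_mono _ _ le_top
  by_contra hne
  obtain ⟨C, hBC, hCr, hC⟩ := exists_closure M B
  have h2 : ∃ v, v ∉ C := by
    by_contra h
    push Not at h
    have : C = ⊤ := by
      rw [eq_top_iff]
      intro v _
      exact h v
    rw [this] at hCr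
    omega
  obtain ⟨v, hv⟩ := h2
  have h3 := hC v hv
  have h4 := finrank_sup_span_le B v
  have h5 := M.r_le_finrank (B ⊔ Submodule.span F {v})
  have h6 : M.Indep (B ⊔ Submodule.span F {v}) := by
    unfold QMatroid.Indep
    omega
  have h7 := hBm _ h6 le_sup_left
  rw [h7] at h3
  omega

lemma exists_basis_ge {A : Submodule F V} (hA : M.Indep A) :
    ∃ B : Submodule F V, A ≤ B ∧ M.IsBasis B := by
  classical
  have hbd : ∀ d, (∃ C : Submodule F V, A ≤ C ∧ M.Indep C ∧ finrank F C = d) →
      d ≤ finrank F V := by
    rintro d ⟨C, _, _, rfl⟩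
    exact Submodule.finrank_le C
  have h1 := Nat.findGreatest_spec (P := fun d => ∃ C : Submodule F V, A ≤ C ∧ M.Indep C ∧
      finrank F C = d) (hbd _ ⟨A, le_refl _, hA, rfl⟩) ⟨A, le_refl _, hA, rfl⟩
  obtain ⟨B, hAB, hBi, hBd⟩ := h1
  refine ⟨B, hAB, hBi, fun B' hB' hBB' => ?_⟩
  have h2 : finrank F B' ≤ finrank F B := by
    rw [hBd]
    exact Nat.le_findGreatest (Submodule.finrank_le B') ⟨B', hAB.trans hBB', hB', rfl⟩
  exact (Submodule.eq_of_le_of_finrank_le hBB' h2).symm

lemma indep_bot : M.Indep (⊥ : Submodule F V) := by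
  have := M.r_le_finrank ⊥
  unfold QMatroid.Indep
  simp only [finrank_bot] at this ⊢
  omega

lemma barNullity_top : M.barNullity ⊤ = M.r ⊤ := by
  unfold QMatroid.barNullity
  have : {d : ℕ | ∃ B : Submodule F V, M.IsBasis B ∧ d = finrank F (B ⊓ ⊤ : Submodule F V)} =
      {M.r ⊤} := by
    ext d
    simp only [Set.mem_ofPred_eq, Set.mem_singleton_iff]
    constructor
    · rintro ⟨B, hB, rfl⟩
      rw [inf_top_eq]
      exact basis_finrank M hB
    · rintro rfl
      obtain ⟨B, _, hB⟩ := exists_basis_ge M (indep_bot M)
      refine ⟨B, hB, ?_⟩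
      rw [inf_top_eq]
      exact (basis_finrank M hB).symm
  rw [this]
  exact csInf_singleton _

lemma barNullity_le {B : Submodule F V} (hB : M.IsBasis B) (X : Submodule F V) :
    M.barNullity X ≤ finrank F (B ⊓ X : Submodule F V) :=
  Nat.sInf_le ⟨B, hB, rfl⟩

lemma exists_barNullity (X : Submodule F V) :
    ∃ B : Submodule F V, M.IsBasis B ∧ M.barNullity X = finrank F (B ⊓ X : Submodule F V) := by
  obtain ⟨B, _, hB⟩ := exists_basis_ge M (indep_bot M)
  exact Nat.sInf_mem (s := {d : ℕ | ∃ B : Submodule F V, M.IsBasis B ∧
    d = finrank F (B ⊓ X : Submodule F V)}) ⟨_, B, hB, rfl⟩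

end basics

section transversal

variable [FiniteDimensional F V] (M : QMatroid F V)

lemma inter_anti {n : ℕ} (X : Fin n → Submodule F V) {J K : Finset (Fin n)} (h : J ⊆ K) :
    inter X K ≤ inter X J := by
  unfold inter
  exact biInf_mono fun i hi => h hi

lemma mem_inter {n : ℕ} {X : Fin n → Submodule F V} {J : Finset (Fin n)} {v : V} :
    v ∈ inter X J ↔ ∀ j ∈ J, v ∈ X j := by
  unfold inter
  simp [Submodule.mem_iInf]

lemma inter_union {n : ℕ} [DecidableEq (Fin n)] (X : Fin n → Submodule F V)
    (J K : Finset (Fin n)) : inter X (J ∪ K) = inter X J ⊓ inter X K := by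
  ext v
  rw [Submodule.mem_inf, mem_inter, mem_inter, mem_inter]
  constructor
  · intro h
    exact ⟨fun j hj => h j (Finset.mem_union_left _ hj),
      fun j hj => h j (Finset.mem_union_right _ hj)⟩
  · rintro ⟨h1, h2⟩ j hj
    rcases Finset.mem_union.1 hj with h | h
    · exact h1 j h
    · exact h2 j h

/-- Hall's condition: the numerical criterion implies that `T` is a `q`-transversal. -/
lemma isQTransversal_of {n : ℕ} {X : Fin n → Submodule F V} {T : Submodule F V}
    (hT : finrank F T = n)
    (h : ∀ J : Finset (Fin n), finrank F (T ⊓ inter X J : Submodule F V) + J.card ≤ n) :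
    IsQTransversal X T := by
  classical
  refine ⟨hT, fun b => ?_⟩
  have hall := (Finset.all_card_le_biUnion_card_iff_exists_injective
    (fun i : Fin n => (Finset.univ.filter fun k : Fin n => (b k : V) ∉ X i))).1 (by
      intro s
      set U : Finset (Fin n) := s.biUnion fun i => Finset.univ.filter fun k => (b k : V) ∉ X i
        with hU
      -- the complement of `U` indexes independent vectors of `T ⊓ inter X s`
      have h1 : Uᶜ.card ≤ finrank F (T ⊓ inter X s : Submodule F V) := by
        have hmem : ∀ k : (Uᶜ : Finset (Fin n)), (b k : V) ∈ T ⊓ inter X s := by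
          rintro ⟨k, hk⟩
          refine ⟨(b k).2, mem_inter.2 fun j hj => ?_⟩
          rw [Finset.mem_compl, hU, Finset.mem_biUnion] at hk
          push Not at hk
          have := hk j hj
          simpa using this
        have hli : LinearIndependent F
            (fun k : (Uᶜ : Finset (Fin n)) => (⟨(b k : V), hmem k⟩ :
              (T ⊓ inter X s : Submodule F V))) := by
          have h2 : LinearIndependent F (fun k : Fin n => (b k : V)) :=
            b.linearIndependent.map' T.subtype (Submodule.ker_subtype T)
          have h3 : LinearIndependent F (fun k : (Uᶜ : Finset (Fin n)) => (b k : V)) :=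
            h2.comp _ Subtype.val_injective
          exact LinearIndependent.of_comp (T ⊓ inter X s : Submodule F V).subtype h3
        have := hli.fintype_card_le_finrank
        rwa [Fintype.card_coe] at this
      have h2 := h s
      rw [Finset.card_compl, Fintype.card_fin] at h1
      have h3 : U.card ≤ n := by
        have := Finset.card_le_univ U
        simpa using this
      omega)
  obtain ⟨f, hfinj, hf⟩ := hall
  refine ⟨Equiv.ofBijective f (Finite.injective_iff_bijective.1 hfinj), fun i => ?_⟩
  have := hf i
  rw [Finset.mem_filter] at this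
  exact this.2

/-- Conversely a `q`-transversal satisfies the numerical criterion. -/
lemma criterion_of_isQTransversal {n : ℕ} {X : Fin n → Submodule F V} {T : Submodule F V}
    (hT : IsQTransversal X T) (J : Finset (Fin n)) :
    finrank F (T ⊓ inter X J : Submodule F V) + J.card ≤ n := by
  classical
  obtain ⟨hTn, hTb⟩ := hT
  -- `S` is the trace of `inter X J` on `T`
  set S : Submodule F T := (inter X J).comap T.subtype with hS
  have hSd : finrank F S = finrank F (T ⊓ inter X J : Submodule F V) := by
    have h1 : S.map T.subtype = T ⊓ inter X J := by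
      rw [hS, Submodule.map_comap_subtype]
    rw [← h1]
    exact (Submodule.equivMapOfInjective T.subtype T.injective_subtype S).finrank_eq
  obtain ⟨S', hS'⟩ := exists_isCompl S
  have hsum : finrank F S + finrank F S' = n := by
    rw [← hTn]
    exact Submodule.finrank_add_eq_of_isCompl hS'
  set bb : Basis (Fin (finrank F S) ⊕ Fin (finrank F S')) F T :=
    ((finBasis F S).prod (finBasis F S')).map (Submodule.prodEquivOfIsCompl S S' hS') with hbb
  set e : Fin (finrank F S) ⊕ Fin (finrank F S') ≃ Fin n :=
    finSumFinEquiv.trans (finCongr hsum) with he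
  obtain ⟨σ, hσ⟩ := hTb (bb.reindex e)
  have hin : ∀ k : Fin (finrank F S), ((bb.reindex e) (e (Sum.inl k)) : V) ∈ inter X J := by
    intro k
    rw [Basis.reindex_apply, Equiv.symm_apply_apply, hbb, Basis.map_apply,
      Submodule.coe_prodEquivOfIsCompl']
    have h1 : ((finBasis F S).prod (finBasis F S')) (Sum.inl k) = ((finBasis F S) k, 0) := by
      ext <;> simp [Basis.prod_apply_inl_fst, Basis.prod_apply_inl_snd]
    rw [h1]
    have h2 : ((((finBasis F S) k : S) : T) : V) ∈ inter X J := ((finBasis F S) k).2
    simpa using h2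
  -- the images of `J` under `σ` and of the first block under `e` are disjoint
  set A : Finset (Fin n) := Finset.univ.image fun k : Fin (finrank F S) => e (Sum.inl k) with hA
  set B : Finset (Fin n) := J.image σ with hB
  have hAc : A.card = finrank F S := by
    rw [hA, Finset.card_image_of_injective, Finset.card_univ, Fintype.card_fin]
    intro x y hxy
    exact Sum.inl_injective (e.injective hxy)
  have hBc : B.card = J.card := by
    rw [hB, Finset.card_image_of_injective _ σ.injective]
  have hdisj : Disjoint A B := by
    rw [Finset.disjoint_left]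
    intro z hzA hzB
    rw [hA, Finset.mem_image] at hzA
    rw [hB, Finset.mem_image] at hzB
    obtain ⟨k, _, rfl⟩ := hzA
    obtain ⟨j, hj, hjk⟩ := hzB
    apply hσ j
    rw [hjk]
    exact mem_inter.1 (hin k) j hj
  have h1 := Finset.card_le_univ (A ∪ B)
  rw [Finset.card_union_of_disjoint hdisj, hAc, hBc, Fintype.card_fin, hSd] at h1
  exact h1

/-- The main existence result: if every `𝒳(J)` has codimension at least `|J|` in `V` and `M` has
rank at least `n`, then there is an independent subspace of dimension `n` satisfying the numerical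
criterion. -/
lemma exists_transversal {n : ℕ} (X : Fin n → Submodule F V)
    (h : ∀ J : Finset (Fin n), finrank F (inter X J) + J.card ≤ finrank F V)
    (hr : n ≤ M.r ⊤) :
    ∃ T : Submodule F V, M.Indep T ∧ finrank F T = n ∧
      ∀ J : Finset (Fin n), finrank F (T ⊓ inter X J : Submodule F V) + J.card ≤ n := by
  classical
  -- descend through subspaces `W`
  have key : ∀ d : ℕ, ∀ W : Submodule F V, finrank F W = n + d → n ≤ M.r W →
      (∀ J : Finset (Fin n), finrank F (W ⊓ inter X J : Submodule F V) + J.card ≤
        finrank F W) →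
      ∃ T : Submodule F V, M.Indep T ∧ finrank F T = n ∧
        ∀ J : Finset (Fin n), finrank F (T ⊓ inter X J : Submodule F V) + J.card ≤ n := by
    intro d
    induction d with
    | zero =>
      intro W hW hrW hJ
      rw [add_zero] at hW
      refine ⟨W, ?_, hW, fun J => ?_⟩
      · have := M.r_le_finrank W
        unfold QMatroid.Indep
        omega
      · have := hJ J
        omega
    | succ d ih =>
      intro W hW hrW hJ
      -- tight sets
      set tight : Finset (Finset (Fin n)) := Finset.univ.filter fun J =>
        finrank F (W ⊓ inter X J : Submodule F V) + J.card = finrank F W with htight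
      have hunion : ∀ J ∈ tight, ∀ K ∈ tight, J ∪ K ∈ tight := by
        intro J hJt K hKt
        rw [htight, Finset.mem_filter] at hJt hKt ⊢
        refine ⟨Finset.mem_univ _, ?_⟩
        have h1 := hJ (J ∪ K)
        have h2 := hJ (J ∩ K)
        have h3 := Submodule.finrank_sup_add_finrank_inf_eq (W ⊓ inter X J) (W ⊓ inter X K)
        have h4 : (W ⊓ inter X J) ⊓ (W ⊓ inter X K) = W ⊓ inter X (J ∪ K) := by
          rw [inter_union]
          exact (inf_inf_distrib_left W _ _).symm
        have h5 : (W ⊓ inter X J) ⊔ (W ⊓ inter X K) ≤ W ⊓ inter X (J ∩ K) := by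
          apply sup_le
          · exact inf_le_inf_left W (inter_anti X Finset.inter_subset_left)
          · exact inf_le_inf_left W (inter_anti X Finset.inter_subset_right)
        have h6 := Submodule.finrank_mono h5
        rw [h4] at h3
        have h7 := Finset.card_union_add_card_inter J K
        omega
      have hempty : ∅ ∈ tight := by
        rw [htight, Finset.mem_filter]
        refine ⟨Finset.mem_univ _, ?_⟩
        have h1 : inter X ∅ = ⊤ := by
          unfold inter
          simp
        rw [h1, inf_top_eq, Finset.card_empty, add_zero]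
      -- the largest tight set
      obtain ⟨Jm, hJm, hJmax⟩ : ∃ Jm ∈ tight, ∀ J ∈ tight, J ⊆ Jm := by
        obtain ⟨Jm, hJm, hmax⟩ := Finset.exists_max_image tight Finset.card ⟨∅, hempty⟩
        refine ⟨Jm, hJm, fun J hJt => ?_⟩
        have h1 := hmax _ (hunion J hJt Jm hJm)
        have h2 : Jm = J ∪ Jm :=
          Finset.eq_of_subset_of_card_le Finset.subset_union_right h1
        rw [h2]
        exact Finset.subset_union_left
      have hJm' : finrank F (W ⊓ inter X Jm : Submodule F V) + Jm.card = finrank F W := by
        rw [htight, Finset.mem_filter] at hJm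
        exact hJm.2
      have hpos : 0 < finrank F (W ⊓ inter X Jm : Submodule F V) := by
        have h1 : Jm.card ≤ n := by
          have := Finset.card_le_univ Jm
          simpa using this
        omega
      obtain ⟨v, hv, hv0⟩ : ∃ v ∈ W ⊓ inter X Jm, v ≠ 0 := by
        rw [← Submodule.ne_bot_iff]
        intro hbot
        rw [hbot] at hpos
        simp at hpos
      obtain ⟨Y, hYW, hYi, hYn, hvY⟩ :=
        exists_indep_avoiding M (W := W) hv0 hrW (by omega) n (le_refl _)
      obtain ⟨f, hfv, hYf⟩ := Submodule.exists_le_ker_of_notMem hvY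
      have hW' : finrank F (W ⊓ LinearMap.ker f : Submodule F V) = n + d := by
        have h1 := finrank_inf_ker_ge W f
        have h2 := finrank_inf_ker_lt hv.1 hfv
        omega
      apply ih (W ⊓ LinearMap.ker f) hW'
      · have h1 := M.r_mono Y (W ⊓ LinearMap.ker f) (le_inf hYW hYf)
        have h2 : M.r Y = finrank F Y := hYi
        omega
      · intro J
        have e1 : W ⊓ LinearMap.ker f ⊓ inter X J = (W ⊓ inter X J) ⊓ LinearMap.ker f := by
          rw [inf_assoc, inf_comm (LinearMap.ker f), ← inf_assoc]
        rw [e1, hW']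
        by_cases hJt : J ∈ tight
        · have h1 : v ∈ W ⊓ inter X J :=
            ⟨hv.1, inter_anti X (hJmax J hJt) hv.2⟩
          have h2 := finrank_inf_ker_lt h1 hfv
          rw [htight, Finset.mem_filter] at hJt
          have h3 := hJt.2
          omega
        · have h1 := Submodule.finrank_mono
            (inf_le_left : (W ⊓ inter X J) ⊓ LinearMap.ker f ≤ W ⊓ inter X J)
          have h2 := hJ J
          have h3 : finrank F (W ⊓ inter X J : Submodule F V) + J.card ≠ finrank F W := by
            intro h3
            apply hJt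
            rw [htight, Finset.mem_filter]
            exact ⟨Finset.mem_univ _, h3⟩
          omega
  have h1 : M.r ⊤ ≤ finrank F (⊤ : Submodule F V) := M.r_le_finrank ⊤
  obtain ⟨d, hd⟩ := Nat.exists_eq_add_of_le (hr.trans h1)
  refine key d ⊤ hd hr fun J => ?_
  rw [top_inf_eq, finrank_top]
  exact h J

end transversal

/-- **Rado's theorem for `q`-transversals.** A family `𝒳 = (X 0, …, X (n - 1))` of subspaces has a
`q`-transversal that is independent in the `q`-matroid `M` if and only if
`barNullity (𝒳(J)) + |J| ≤ barNullity V` for all `J`. -/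
theorem result {F V : Type*} [Field F] [AddCommGroup V] [Module F V] [FiniteDimensional F V]
    (M : QMatroid F V) (n : ℕ) (X : Fin n → Submodule F V) :
    (∃ T : Submodule F V, IsQTransversal X T ∧ M.Indep T) ↔
      ∀ J : Finset (Fin n), M.barNullity (inter X J) + J.card ≤ M.barNullity ⊤ := by
  constructor
  · rintro ⟨T, hT, hTi⟩ J
    obtain ⟨B, hTB, hB⟩ := exists_basis_ge M hTi
    have h1 := barNullity_le M hB (inter X J)
    have h2 := criterion_of_isQTransversal hT J
    have h3 := basis_finrank M hB
    have h4 : finrank F T = n := hT.1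
    rw [barNullity_top]
    -- compare `B ⊓ X(J)` and `T ⊓ X(J)` inside `B`
    have h5 := Submodule.finrank_sup_add_finrank_inf_eq T (B ⊓ inter X J)
    have h6 : T ⊓ (B ⊓ inter X J) = T ⊓ inter X J := by
      rw [← inf_assoc, inf_eq_left.2 hTB]
    have h7 : T ⊔ (B ⊓ inter X J) ≤ B := sup_le hTB inf_le_left
    have h8 := Submodule.finrank_mono h7
    rw [h6] at h5
    omega
  · intro h
    rw [barNullity_top] at h
    have hr : n ≤ M.r ⊤ := by
      have := h Finset.univ
      simp only [Finset.card_univ, Fintype.card_fin] at this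
      omega
    obtain ⟨T, hTi, hTn, hTJ⟩ := exists_transversal M X (by
      intro J
      obtain ⟨B, hB, hBX⟩ := exists_barNullity M (inter X J)
      have h1 := h J
      have h2 := basis_finrank M hB
      have h3 := Submodule.finrank_sup_add_finrank_inf_eq B (inter X J)
      have h4 := Submodule.finrank_le (B ⊔ inter X J)
      omega) hr
    exact ⟨T, isQTransversal_of hTn hTJ, hTi⟩

end Pool.Agent.Results.MP_ca0b96_co.QRado
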